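import Pool.Agent.Helper1.TE.Goals4

/-!
# PROJECT TE (MP_8b4d68_lc), packet TE-BPF: the theorem on branching programs
-/

namespace Pool.Agent.Helper12.TE

open Pool.Agent.Helper1.TE

/-- **Packet TE-BPF** -/
theorem gBPF : GoalBPF := by
  intro hPB hOK hPG hBK hBPC hBPS
  obtain ⟨C, hC⟩ := hBPS
  refine ⟨C, fun h k hh hk => ?_⟩
  obtain ⟨b, hb⟩ : ∃ b, b = Nat.clog 2 k := ⟨_, rfl⟩
  have hb1 : 1 ≤ b := by
    rw [hb]
    exact Nat.clog_pos (by norm_num) hk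
  have hkb : k ≤ 2 ^ b := by
    rw [hb]
    exact Nat.le_pow_clog (by norm_num) k
  obtain ⟨-, -, -, hP0, hP1, -⟩ := hPB h b hh hb1
  have hG := hPG h b hh hb1
  have hg : ({ gadM h b (2 ^ EP h b) with K := k } : Gad (ℕ × ℕ)).OK :=
    hBK (gadM h b (2 ^ EP h b)) (hOK h b hh hb1) k hkb
  obtain ⟨B, h1, h2, h3, h4, h5⟩ := hBPC { gadM h b (2 ^ EP h b) with K := k } hg h k (0, 0) hh hk
    rfl (by
      show 0 < (PM h b (2 ^ EP h b)) ^ (mP h b + 2)
      exact pow_pos hP0 _) rfl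
    (Fin ((PM h b (2 ^ EP h b)) ^ (mP h b + 2)) × Fin ((GM h b (2 ^ EP h b)) ^ (h + 1)))
    (fun q => ((q.1 : ℕ), (q.2 : ℕ)))
    (by
      intro q q' hq
      have e1 : (q.1 : ℕ) = q'.1 := congrArg Prod.fst hq
      have e2 : (q.2 : ℕ) = q'.2 := congrArg Prod.snd hq
      exact Prod.ext (Fin.ext e1) (Fin.ext e2))
    (by
      intro z hz hz'
      exact ⟨(⟨z.1, hz⟩, ⟨z.2, hz'⟩), rfl⟩)
  refine ⟨B, h1, h2, h3, h4, ?_⟩
  have hcard : Fintype.card (Fin ((PM h b (2 ^ EP h b)) ^ (mP h b + 2)) ×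
      Fin ((GM h b (2 ^ EP h b)) ^ (h + 1))) ≤ 2 ^ SpB h b := by
    rw [Fintype.card_prod, Fintype.card_fin, Fintype.card_fin]
    calc (PM h b (2 ^ EP h b)) ^ (mP h b + 2) * (GM h b (2 ^ EP h b)) ^ (h + 1)
        ≤ 2 ^ EP h b * (2 ^ (2 * sP h b + 5)) ^ (h + 1) :=
          Nat.mul_le_mul hP1 (Nat.pow_le_pow_left hG _)
      _ = 2 ^ (EP h b + (2 * sP h b + 5) * (h + 1)) := by rw [← pow_mul, ← pow_add]
      _ ≤ 2 ^ SpB h b := by
          apply Nat.pow_le_pow_right (by norm_num)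
          unfold SpB
          have e : (h + 2) * (2 * sP h b + 5) = (2 * sP h b + 5) * (h + 1) + (2 * sP h b + 5) := by
            ring
          omega
  refine le_trans ?_ (hC h k hh hk)
  rw [h5, ← hb]
  exact_mod_cast Nat.add_le_add_left (Nat.mul_le_mul_right _
    (Nat.mul_le_mul_left _ (Nat.pow_le_pow_left hcard 3))) _

end Pool.Agent.Helper12.TE
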