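import Pool.Agent.Helper1.TE.Goals3

/-!
# PROJECT TE (MP_8b4d68_lc), packet TE-LCF: case distinction of linear space functions
-/

namespace Pool.Agent.Helper12.TE

open Pool.Agent.Helper1.TE
open Pool.Agent.Helper65.LinSpace (Ctx LS)

/-- **Packet TE-LCF** -/
theorem gLCF : GoalLCF := by
  intro α β _ _ c f g hc hf hg i hi
  have hf' : LS (fun a => Ctx.enc (f a) i) := LS.nat_iff.2 (hf i hi)
  have hg' : LS (fun a => Ctx.enc (g a) i) := LS.nat_iff.2 (hg i hi)
  obtain ⟨F, hF, hF'⟩ := LS.nat_iff.1 (hc.ifz hf' hg')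
  refine ⟨F, hF, fun a => ?_⟩
  rw [hF']
  show (if c a = 0 then Ctx.enc (f a) i else Ctx.enc (g a) i) =
    Ctx.enc (if c a = 0 then f a else g a) i
  split_ifs <;> rfl

end Pool.Agent.Helper12.TE
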